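import Pool.Agent.Helper71_Pak.PA2

/-!
# PA1: a polygon from two paths with the same ends
-/

namespace Pool.Agent.Helper2_Pak.H71

open Pool.Agent.Helper2_Pack (Polygon pt Crosses region IsSimple chainVal edges side)

theorem crosses_comm (z p q : ℂ) : Crosses z p q ↔ Crosses z q p := by
  unfold Crosses
  constructor
  · rintro ⟨h1, h2⟩
    refine ⟨h1.symm, ?_⟩
    have hne : q.re - p.re ≠ 0 := by
      rcases h1 with h | h
      · have := lt_of_le_of_lt h.1 h.2; linarith
      · have := lt_of_le_of_lt h.1 h.2; intro h0; linarith
    have hne' : p.re - q.re ≠ 0 := fun h0 => hne (by linarith)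
    have : q.im + (z.re - q.re) / (p.re - q.re) * (p.im - q.im) =
        p.im + (z.re - p.re) / (q.re - p.re) * (q.im - p.im) := by
      field_simp
      ring
    rw [this]; exact h2
  · rintro ⟨h1, h2⟩
    refine ⟨h1.symm, ?_⟩
    have hne : p.re - q.re ≠ 0 := by
      rcases h1 with h | h
      · have := lt_of_le_of_lt h.1 h.2; linarith
      · have := lt_of_le_of_lt h.1 h.2; intro h0; linarith
    have hne' : q.re - p.re ≠ 0 := fun h0 => hne (by linarith)
    have : q.im + (z.re - q.re) / (p.re - q.re) * (p.im - q.im) =
        p.im + (z.re - p.re) / (q.re - p.re) * (q.im - p.im) := by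
      field_simp
      ring
    rw [← this]; exact h2

theorem prs_reverse (L : Polygon) : prs L.reverse = ((prs L).map Prod.swap).reverse := by
  induction L with
  | nil => simp [prs]
  | cons a L ih =>
    cases L with
    | nil => simp [prs]
    | cons b L =>
      have e : (a :: b :: L).reverse = L.reverse ++ b :: [a] := by simp
      have e2 : (b :: L).reverse = L.reverse ++ [b] := by simp
      rw [e, prs_append, ← e2, ih, prs_cons]
      simp [prs]

theorem edges_eq {P : Polygon} {A : ℚ × ℚ} (h : P.head? = some A) :
    edges P = prs (P ++ [A]) := by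
  obtain ⟨Y, rfl⟩ := decomp_head h
  unfold edges prs
  have h1 : (A :: Y).rotate 1 = Y ++ [A] := by simp
  rw [h1]
  have h2 : (A :: Y ++ [A]).tail = Y ++ [A] := by simp
  rw [h2]
  have : (A :: Y ++ [A]).zip (Y ++ [A] ++ []) = (A :: Y).zip (Y ++ [A]) ++ [A].zip [] :=
    List.zip_append (by simp)
  simpa using this.symm

theorem pA1 : PA1Stmt := by
  classical
  intro F U A B hFA hUA hFB hUB hAB hF hU
  obtain ⟨F', rfl⟩ := decomp_last hFB
  obtain ⟨U', hU'⟩ := decomp_last hUB
  obtain ⟨U'', rfl⟩ := decomp_head hUA
  -- F = F' ++ [B], U = A :: U'' = U' ++ [B]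
  have hF' : F' ≠ [] := by rintro rfl; simp at hF
  obtain ⟨F'', rfl⟩ : ∃ F'', F' = A :: F'' := by
    cases F' with
    | nil => exact absurd rfl hF'
    | cons c F'' => simp at hFA; exact ⟨F'', by rw [hFA]⟩
  have hdrop : (A :: F'' ++ [B]).dropLast = A :: F'' := List.dropLast_concat
  rw [hdrop]
  have htail : (A :: U'').tail = U'' := rfl
  rw [htail]
  have hrev : (A :: U'').reverse = U''.reverse ++ [A] := by simp
  have hrev2 : (A :: U'').reverse = B :: U'.reverse := by rw [hU']; simp
  set P : Polygon := A :: F'' ++ U''.reverse with hP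
  have hPA : P ++ [A] = A :: F'' ++ B :: U'.reverse := by
    rw [hP, List.append_assoc, ← hrev, hrev2]
  have hedges : edges P = prs (A :: F'' ++ [B]) ++ ((prs (A :: U'')).map Prod.swap).reverse := by
    rw [edges_eq (A := A) (by rw [hP]; rfl), hPA, prs_append, ← hrev2, prs_reverse]
  have hlF : (A :: F'' ++ [B]).length = F''.length + 2 := by simp
  have hlU : (A :: U'').length = U''.length + 1 := by simp
  constructor
  · ext z
    simp only [region, Set.mem_setOf_eq]
    rw [hedges, List.countP_append, List.countP_reverse, List.countP_map]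
    have hc1 : (prs (A :: F'' ++ [B])).countP (fun e => Crosses z (pt e.1) (pt e.2)) =
        cr z (A :: F'' ++ [B]) := rfl
    have hc2 : (prs (A :: U'')).countP ((fun e : (ℚ × ℚ) × (ℚ × ℚ) =>
        decide (Crosses z (pt e.1) (pt e.2))) ∘ Prod.swap) = cr z (A :: U'') := by
      unfold cr
      refine List.countP_congr fun e _ => ?_
      simp only [Function.comp, Prod.fst_swap, Prod.snd_swap, decide_eq_true_eq]
      exact (crosses_comm z _ _)
    rw [hc1, hc2]
    rw [pathSet_eq (L := A :: F'' ++ [B]) (by omega), pathSet_eq (L := A :: U'') (by omega)]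
    simp only [Set.mem_setOf_eq, List.mem_append, List.mem_reverse, List.mem_map]
    rw [← or_assoc]
    refine or_congr ?_ Iff.rfl
    constructor
    · rintro ⟨e, he | ⟨e', he', rfl⟩, hz⟩
      · left; exact ⟨e, he, hz⟩
      · right
        refine ⟨e', he', ?_⟩
        rw [segment_symm]; exact hz
    · rintro (⟨e, he, hz⟩ | ⟨e, he, hz⟩)
      · exact ⟨e, Or.inl he, hz⟩
      · refine ⟨e.swap, Or.inr ⟨e, he, rfl⟩, ?_⟩
        rw [segment_symm]; exact hz
  · intro hsF hsU hFU
    -- lengths
    set a := F''.length with ha
    set b := U''.length with hb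
    have hPl : P.length = a + 1 + b := by rw [hP]; simp [ha, hb]; omega
    have hb2 : 2 ≤ b := by omega
    -- the corners of P
    have hg1 : ∀ i, i ≤ a + 1 → P.getD (i % P.length) 0 = (A :: F'' ++ [B]).getD i 0 := by
      intro i hi
      have h1 : i % P.length = i := Nat.mod_eq_of_lt (by omega)
      rw [h1]
      have h2 : (P ++ [A]).getD i 0 = P.getD i 0 :=
        List.getD_append _ _ _ _ (by omega)
      rw [← h2, hPA]
      exact getD_left (A :: F'') U'.reverse B (by simpa [ha] using hi)
    have hg2 : ∀ j, j ≤ b → P.getD ((a + 1 + j) % P.length) 0 = (A :: U'').getD (b - j) 0 := by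
      intro j hj
      have h3 : P.getD ((a + 1 + j) % P.length) 0 = (P ++ [A]).getD (a + 1 + j) 0 := by
        rcases Nat.lt_or_ge j b with h | h
        · have h1 : (a + 1 + j) % P.length = a + 1 + j := Nat.mod_eq_of_lt (by omega)
          rw [h1]
          exact (List.getD_append _ _ _ _ (by omega)).symm
        · have hjb : j = b := le_antisymm hj h
          subst hjb
          have h1 : (a + 1 + b) % P.length = 0 := by rw [hPl]; exact Nat.mod_self _
          rw [h1, ← hPl]
          rw [List.getD_append_right _ _ _ _ (le_refl _)]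
          simp [hP]
      rw [h3, hPA]
      have h4 : (A :: F'' ++ B :: U'.reverse).getD (a + 1 + j) 0 = (B :: U'.reverse).getD j 0 := by
        have := getD_right (A :: F'') U'.reverse B j
        rw [show (A :: F'').length = a + 1 by simp [ha]] at this
        exact this
      rw [h4, ← hrev2]
      rw [List.getD_eq_getElem _ _ (by simp; omega), List.getD_eq_getElem _ _ (by simp; omega)]
      rw [List.getElem_reverse]
      congr 1
    have hside1 : ∀ i, i ≤ a → side P i = segP (A :: F'' ++ [B]) i := by
      intro i hi
      simp only [side, segP]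
      have h1 := hg1 i (by omega)
      rw [Nat.mod_eq_of_lt (by omega)] at h1
      rw [h1, hg1 (i + 1) (by omega)]
    have hside2 : ∀ j, j < b → side P (a + 1 + j) = segP (A :: U'') (b - 1 - j) := by
      intro j hj
      simp only [side, segP]
      have h1 := hg2 j (by omega)
      rw [Nat.mod_eq_of_lt (by omega)] at h1
      rw [h1, show a + 1 + j + 1 = a + 1 + (j + 1) by omega, hg2 (j + 1) (by omega)]
      rw [show b - (j + 1) = b - 1 - j by omega, show b - j = b - 1 - j + 1 by omega,
        segment_symm]
    have hBF : (A :: F'' ++ [B]).getD (a + 1) 0 = B := by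
      rw [List.getD_append_right _ _ _ _ (by simp [ha])]; simp [ha]
    have hBU : (A :: U'').getD b 0 = B := by
      rw [hU', List.getD_append_right _ _ _ _ (by
        have := congrArg List.length hU'; simp at this; omega)]
      have : b - U'.length = 0 := by
        have := congrArg List.length hU'; simp at this; omega
      rw [this]; rfl
    refine ⟨by omega, fun i j hij hj z hz hz' => ?_⟩
    rcases Nat.lt_or_ge j (a + 1) with hja | hja
    · -- both in F
      rw [hside1 i (by omega)] at hz
      rw [hside1 j (by omega)] at hz'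
      obtain ⟨h1, h2⟩ := hsF.2 i j hij (by omega) z hz hz'
      left
      refine ⟨h1, ?_⟩
      have h3 := hg1 j (by omega)
      rw [Nat.mod_eq_of_lt (by omega)] at h3
      rw [h3]; exact h2
    · obtain ⟨j', rfl⟩ := Nat.exists_eq_add_of_le hja
      rw [hside2 j' (by omega)] at hz'
      rcases Nat.lt_or_ge i (a + 1) with hia | hia
      · rw [hside1 i (by omega)] at hz
        have hzF : z ∈ pathSet (A :: F'' ++ [B]) := Or.inl ⟨i, by omega, hz⟩
        have hzU : z ∈ pathSet (A :: U'') := Or.inl ⟨b - 1 - j', by omega, hz'⟩
        rcases hFU z hzF hzU with rfl | rfl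
        · right
          have hi0 : i = 0 := simpleP_head hsF (by omega) (by simpa using hz)
          have hj0 : b - 1 - j' = 0 := simpleP_head hsU (by omega) (by simpa using hz')
          refine ⟨hi0, by omega, ?_⟩
          rw [hP]; rfl
        · left
          have hi0 : i = a := simpleP_last hsF (by omega) (by omega) (by rw [hBF]; exact hz)
          have hj0 : b - 1 - j' = b - 1 := simpleP_last hsU (by omega) (by omega) (by
            rw [show b - 1 + 1 = b by omega, hBU]; exact hz')
          have hj1 : j' = 0 := by omega
          subst hj1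
          refine ⟨by omega, ?_⟩
          have h3 := hg2 0 (by omega)
          rw [Nat.mod_eq_of_lt (by omega)] at h3
          rw [h3, Nat.sub_zero, hBU]
      · obtain ⟨i', rfl⟩ := Nat.exists_eq_add_of_le hia
        rw [hside2 i' (by omega)] at hz
        obtain ⟨h1, h2⟩ := hsU.2 (b - 1 - j') (b - 1 - i') (by omega) (by omega) z hz' hz
        left
        refine ⟨by omega, ?_⟩
        have h3 := hg2 j' (by omega)
        rw [Nat.mod_eq_of_lt (by omega)] at h3
        rw [h3, h2]
        congr 2
        omega

end Pool.Agent.Helper2_Pak.H71
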