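import Pool.Agent.Helper2_Pak.StmtsP

/-!
# PA2: joining two paths
-/

namespace Pool.Agent.Helper2_Pak.H71

open Pool.Agent.Helper2_Pack (Polygon pt Crosses region IsSimple chainVal)

theorem pt_inj {p q : ℚ × ℚ} (h : pt p = pt q) : p = q := by
  have h1 := congrArg Complex.re h
  have h2 := congrArg Complex.im h
  simp only [pt] at h1 h2
  exact Prod.ext (by exact_mod_cast h1) (by exact_mod_cast h2)

theorem left_mem_segP (L : Polygon) (i : ℕ) : pt (L.getD i 0) ∈ segP L i := left_mem_segment _ _ _

theorem right_mem_segP (L : Polygon) (i : ℕ) : pt (L.getD (i + 1) 0) ∈ segP L i :=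
  right_mem_segment _ _ _

theorem simpleP_last {L : Polygon} (h : SimpleP L) {i n : ℕ} (hn : L.length = n + 2)
    (hi : i + 1 < L.length) (hz : pt (L.getD (n + 1) 0) ∈ segP L i) : i = n := by
  by_contra hne
  have hlt : i < n := by omega
  obtain ⟨h1, h2⟩ := h.2 i n hlt (by omega) _ hz (right_mem_segP L n)
  exact h.1 n (by omega) (pt_inj h2.symm)

theorem simpleP_head {L : Polygon} (h : SimpleP L) {i : ℕ}
    (hi : i + 1 < L.length) (hz : pt (L.getD 0 0) ∈ segP L i) : i = 0 := by
  by_contra hne
  have hlt : 0 < i := by omega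
  obtain ⟨h1, h2⟩ := h.2 0 i hlt hi _ (left_mem_segP L 0) hz
  subst h1
  exact h.1 0 (by omega) (pt_inj h2)

/-- the pairs of consecutive points -/
def prs (L : Polygon) : List ((ℚ × ℚ) × (ℚ × ℚ)) := L.zip L.tail

theorem prs_cons (p q : ℚ × ℚ) (L : Polygon) : prs (p :: q :: L) = (p, q) :: prs (q :: L) := rfl

theorem prs_append (X Y : Polygon) (v : ℚ × ℚ) :
    prs (X ++ v :: Y) = prs (X ++ [v]) ++ prs (v :: Y) := by
  induction X with
  | nil => simp [prs]
  | cons a X ih =>
    cases X with
    | nil => simp [prs]
    | cons b X =>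
      simp only [List.cons_append] at ih ⊢
      rw [prs_cons, prs_cons, ih, List.cons_append]

theorem exists_prs {L : Polygon} {z : ℂ} :
    (∃ e ∈ prs L, z ∈ segment ℝ (pt e.1) (pt e.2)) ↔ ∃ i, i + 1 < L.length ∧ z ∈ segP L i := by
  induction L with
  | nil => simp [prs]
  | cons a L ih =>
    cases L with
    | nil => simp [prs]
    | cons b L =>
      rw [prs_cons]
      simp only [List.mem_cons, exists_eq_or_imp]
      rw [ih]
      constructor
      · rintro (h | ⟨i, hi, h⟩)
        · exact ⟨0, by simp, h⟩
        · exact ⟨i + 1, by simpa using hi, h⟩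
      · rintro ⟨i, hi, h⟩
        cases i with
        | zero => left; exact h
        | succ i => right; exact ⟨i, by simpa using hi, h⟩

theorem pathSet_eq {L : Polygon} (hL : 2 ≤ L.length) :
    pathSet L = {z | ∃ e ∈ prs L, z ∈ segment ℝ (pt e.1) (pt e.2)} := by
  ext z
  simp only [pathSet, Set.mem_setOf_eq]
  rw [exists_prs]
  constructor
  · rintro (h | ⟨p, rfl, _⟩)
    · exact h
    · simp at hL
  · intro h; left; exact h

theorem pathSet_single (v : ℚ × ℚ) : pathSet [v] = {pt v} := by
  ext z
  simp only [pathSet, Set.mem_setOf_eq, Set.mem_singleton_iff]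
  constructor
  · rintro (⟨i, hi, _⟩ | ⟨p, hp, rfl⟩)
    · simp at hi
    · rw [List.singleton_inj] at hp; rw [hp]
  · rintro rfl; right; exact ⟨v, rfl, rfl⟩

theorem pathSet_append (X Y : Polygon) (v : ℚ × ℚ) :
    pathSet (X ++ v :: Y) = pathSet (X ++ [v]) ∪ pathSet (v :: Y) := by
  cases X with
  | nil =>
    cases Y with
    | nil => simp
    | cons b Y =>
      simp only [List.nil_append]
      rw [pathSet_single, pathSet_eq (L := v :: b :: Y) (by simp)]
      ext z
      simp only [Set.mem_union, Set.mem_singleton_iff, Set.mem_setOf_eq]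
      constructor
      · intro h; right; exact h
      · rintro (rfl | h)
        · exact ⟨(v, b), by simp [prs], left_mem_segment _ _ _⟩
        · exact h
  | cons a X =>
    cases Y with
    | nil =>
      rw [pathSet_single]
      ext z
      simp only [Set.mem_union, Set.mem_singleton_iff]
      constructor
      · intro h; left; exact h
      · rintro (h | rfl)
        · exact h
        · rw [pathSet_eq (by simp)]
          rw [Set.mem_setOf_eq, exists_prs]
          refine ⟨X.length, by simp, ?_⟩
          have : (a :: X ++ [v]).getD (X.length + 1) 0 = v := by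
            simp [List.getD_append_right]
          have h2 := right_mem_segP (a :: X ++ [v]) X.length
          rwa [this] at h2
    | cons b Y =>
      rw [pathSet_eq (L := a :: X ++ v :: b :: Y) (by simp; omega),
        pathSet_eq (L := a :: X ++ [v]) (by simp), pathSet_eq (L := v :: b :: Y) (by simp),
        prs_append]
      ext z
      simp only [Set.mem_union, Set.mem_setOf_eq, List.mem_append]
      constructor
      · rintro ⟨e, he | he, hz⟩
        · left; exact ⟨e, he, hz⟩
        · right; exact ⟨e, he, hz⟩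
      · rintro (⟨e, he, hz⟩ | ⟨e, he, hz⟩)
        · exact ⟨e, Or.inl he, hz⟩
        · exact ⟨e, Or.inr he, hz⟩

theorem cr_append (z : ℂ) (X Y : Polygon) (v : ℚ × ℚ) :
    cr z (X ++ v :: Y) = cr z (X ++ [v]) + cr z (v :: Y) := by
  have := prs_append X Y v
  simp only [prs] at this
  simp only [cr]
  rw [this, List.countP_append]

theorem getD_left (X Y : Polygon) (v : ℚ × ℚ) {i : ℕ} (hi : i ≤ X.length) :
    (X ++ v :: Y).getD i 0 = (X ++ [v]).getD i 0 := by
  rcases Nat.lt_or_ge i X.length with h | h
  · rw [List.getD_append _ _ _ _ h, List.getD_append _ _ _ _ h]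
  · have : i = X.length := le_antisymm hi h
    subst this
    simp [List.getD_append_right]

theorem getD_right (X Y : Polygon) (v : ℚ × ℚ) (i : ℕ) :
    (X ++ v :: Y).getD (X.length + i) 0 = (v :: Y).getD i 0 := by
  rw [List.getD_append_right _ _ _ _ (by omega)]
  simp

theorem simpleP_append {X Y : Polygon} {v : ℚ × ℚ} (h1 : SimpleP (X ++ [v]))
    (h2 : SimpleP (v :: Y))
    (h : ∀ z ∈ pathSet (X ++ [v]), z ∈ pathSet (v :: Y) → z = pt v) :
    SimpleP (X ++ v :: Y) := by
  have hs1 : ∀ i, i < X.length → segP (X ++ v :: Y) i = segP (X ++ [v]) i := by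
    intro i hi
    simp only [segP]
    rw [getD_left X Y v hi.le, getD_left X Y v hi]
  have hs2 : ∀ i, segP (X ++ v :: Y) (X.length + i) = segP (v :: Y) i := by
    intro i
    simp only [segP]
    rw [getD_right, show X.length + i + 1 = X.length + (i + 1) by omega, getD_right]
  have hl1 : (X ++ [v]).length = X.length + 1 := by simp
  have hl2 : (v :: Y).length = Y.length + 1 := by simp
  have hl : (X ++ v :: Y).length = X.length + Y.length + 1 := by simp; omega
  refine ⟨fun i hi => ?_, fun i j hij hj z hz hz' => ?_⟩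
  · rcases Nat.lt_or_ge i X.length with h3 | h3
    · rw [getD_left X Y v h3.le, getD_left X Y v h3]
      exact h1.1 i (by omega)
    · obtain ⟨k, rfl⟩ := Nat.exists_eq_add_of_le h3
      rw [getD_right, show X.length + k + 1 = X.length + (k + 1) by omega, getD_right]
      exact h2.1 k (by omega)
  · rcases Nat.lt_or_ge j X.length with h3 | h3
    · rw [hs1 i (by omega)] at hz
      rw [hs1 j h3] at hz'
      rw [getD_left X Y v h3.le]
      exact h1.2 i j hij (by omega) z hz hz'
    · obtain ⟨k, rfl⟩ := Nat.exists_eq_add_of_le h3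
      rw [hs2] at hz'
      rw [getD_right]
      rcases Nat.lt_or_ge i X.length with h4 | h4
      · rw [hs1 i h4] at hz
        have hzv : z = pt v := h z (Or.inl ⟨i, by omega, hz⟩) (Or.inl ⟨k, by omega, hz'⟩)
        have hk : k = 0 := by
          refine simpleP_head h2 (i := k) (by omega) ?_
          rw [hzv] at hz'; exact hz'
        have hi : i = X.length - 1 := by
          refine simpleP_last h1 (n := X.length - 1) (by omega) (by omega) ?_
          have : X.length - 1 + 1 = X.length := by omega
          rw [this]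
          have h5 : (X ++ [v]).getD X.length 0 = v := by simp [List.getD_append_right]
          rw [h5, ← hzv]; exact hz
        subst hk
        exact ⟨by omega, by simpa using hzv⟩
      · obtain ⟨k', rfl⟩ := Nat.exists_eq_add_of_le h4
        rw [hs2] at hz
        obtain ⟨h5, h6⟩ := h2.2 k' k (by omega) (by omega) z hz hz'
        exact ⟨by omega, h6⟩

theorem decomp_last {L : Polygon} {v : ℚ × ℚ} (h : L.getLast? = some v) :
    ∃ X, L = X ++ [v] := by
  obtain ⟨X, hX⟩ := List.getLast?_eq_some_iff.1 h
  exact ⟨X, hX⟩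

theorem decomp_head {L : Polygon} {v : ℚ × ℚ} (h : L.head? = some v) : ∃ Y, L = v :: Y := by
  cases L with
  | nil => simp at h
  | cons a Y => simp at h; exact ⟨Y, by rw [h]⟩

theorem pA2 : PA2Stmt := by
  intro L L' v hL hL'
  obtain ⟨X, rfl⟩ := decomp_last hL
  obtain ⟨Y, rfl⟩ := decomp_head hL'
  have e : X ++ [v] ++ (v :: Y).tail = X ++ v :: Y := by simp
  rw [e]
  exact ⟨pathSet_append X Y v, fun z => cr_append z X Y v, fun h1 h2 h => simpleP_append h1 h2 h⟩

end Pool.Agent.Helper2_Pak.H71
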